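import Mathlib

set_option autoImplicit false

/-!
# Signed coordinates, cones of signed simplices, and the step maps
-/

namespace TVC

/-- Signed coordinate: the literal `2 v` stands for `x v`, the literal `2 v + 1` for `- x v`. -/
def co (x : ℕ → ℝ) (n : ℕ) : ℝ := if n % 2 = 0 then x (n / 2) else - x (n / 2)

/-- The opposite literal. -/
def opp (n : ℕ) : ℕ := if n % 2 = 0 then n + 1 else n - 1

theorem opp_opp (n : ℕ) : opp (opp n) = n := by
  unfold opp; split_ifs <;> omega

theorem opp_ne (n : ℕ) : opp n ≠ n := by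
  unfold opp; split_ifs <;> omega

theorem opp_inj {m n : ℕ} (h : opp m = opp n) : m = n := by
  rw [← opp_opp m, h, opp_opp]

theorem co_opp (x : ℕ → ℝ) (n : ℕ) : co x (opp n) = - co x n := by
  unfold co opp
  by_cases h : n % 2 = 0
  · have h1 : (n + 1) % 2 ≠ 0 := by omega
    have h2 : (n + 1) / 2 = n / 2 := by omega
    simp [h, h1, h2]
  · have h1 : (n - 1) % 2 = 0 := by omega
    have h2 : (n - 1) / 2 = n / 2 := by omega
    simp [h, h1, h2]

theorem co_neg (x : ℕ → ℝ) (n : ℕ) : co (-x) n = - co x n := by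
  unfold co; split_ifs <;> simp

theorem co_two_mul (x : ℕ → ℝ) (v : ℕ) : co x (2 * v) = x v := by
  unfold co; simp

theorem co_two_mul_add (x : ℕ → ℝ) (v : ℕ) : co x (2 * v + 1) = - x v := by
  unfold co
  have h1 : (2 * v + 1) % 2 ≠ 0 := by omega
  have h2 : (2 * v + 1) / 2 = v := by omega
  simp [h1, h2]

theorem continuous_co (n : ℕ) : Continuous (fun x : ℕ → ℝ => co x n) := by
  unfold co; split_ifs
  · exact continuous_apply _
  · exact (continuous_apply _).neg

/-- The minimum of the coordinates of `σ`, cut off at `0`. -/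
def mn (x : ℕ → ℝ) : List ℕ → ℝ
  | [] => 0
  | [n] => co x n
  | n :: m :: l => min (co x n) (mn x (m :: l))

def mu (σ : List ℕ) (x : ℕ → ℝ) : ℝ := max 0 (mn x σ)

theorem mn_le (x : ℕ → ℝ) (σ : List ℕ) : ∀ n ∈ σ, mn x σ ≤ co x n := by
  induction σ with
  | nil => simp
  | cons a l ih =>
    cases l with
    | nil => intro n hn; simp at hn; subst hn; exact le_refl _
    | cons b l =>
      intro n hn
      rcases List.mem_cons.1 hn with rfl | hn
      · exact min_le_left _ _
      · exact (min_le_right _ _).trans (ih n hn)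

theorem mn_mem (x : ℕ → ℝ) (σ : List ℕ) (h : σ ≠ []) : ∃ n ∈ σ, mn x σ = co x n := by
  induction σ with
  | nil => exact absurd rfl h
  | cons a l ih =>
    cases l with
    | nil => exact ⟨a, by simp, rfl⟩
    | cons b l =>
      obtain ⟨n, hn, e⟩ := ih (by simp)
      rcases le_total (co x a) (mn x (b :: l)) with hle | hle
      · exact ⟨a, by simp, min_eq_left hle⟩
      · exact ⟨n, List.mem_cons_of_mem _ hn, (min_eq_right hle).trans e⟩

theorem continuous_mn (σ : List ℕ) : Continuous (fun x : ℕ → ℝ => mn x σ) := by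
  induction σ with
  | nil => exact continuous_const
  | cons a l ih =>
    cases l with
    | nil => exact continuous_co a
    | cons b l => exact (continuous_co a).min ih

theorem continuous_mu (σ : List ℕ) : Continuous (mu σ) :=
  continuous_const.max (continuous_mn σ)

theorem mu_nonneg (σ : List ℕ) (x : ℕ → ℝ) : 0 ≤ mu σ x := le_max_left _ _

theorem mu_le {σ : List ℕ} {x : ℕ → ℝ} (h : 0 < mu σ x) : ∀ n ∈ σ, mu σ x ≤ co x n := by
  intro n hn
  have h1 : mu σ x = mn x σ := by
    unfold mu at h ⊢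
    rcases lt_max_iff.1 h with h | h
    · exact absurd h (lt_irrefl _)
    · exact max_eq_right h.le
  rw [h1]; exact mn_le x σ n hn

theorem mu_ne_nil {σ : List ℕ} {x : ℕ → ℝ} (h : 0 < mu σ x) : σ ≠ [] := by
  rintro rfl
  simp [mu, mn] at h

theorem mu_eq {σ : List ℕ} {x : ℕ → ℝ} (h : 0 < mu σ x) : ∃ n ∈ σ, mu σ x = co x n := by
  have h1 : mu σ x = mn x σ := by
    unfold mu at h ⊢
    rcases lt_max_iff.1 h with h | h
    · exact absurd h (lt_irrefl _)
    · exact max_eq_right h.le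
  rw [h1]; exact mn_mem x σ (mu_ne_nil h)

/-- If `mu` is zero, some coordinate is nonpositive. -/
theorem mu_zero {σ : List ℕ} {x : ℕ → ℝ} (hσ : σ ≠ []) (h : mu σ x = 0) :
    ∃ n ∈ σ, co x n ≤ 0 := by
  obtain ⟨n, hn, e⟩ := mn_mem x σ hσ
  refine ⟨n, hn, ?_⟩
  rw [← e]
  have := le_max_right 0 (mn x σ)
  unfold mu at h
  linarith

theorem mu_zero_of {σ : List ℕ} {x : ℕ → ℝ} {n : ℕ} (hn : n ∈ σ) (h : co x n ≤ 0) :
    mu σ x = 0 := by
  by_contra hne
  have hpos : 0 < mu σ x := lt_of_le_of_ne (mu_nonneg σ x) (Ne.symm hne)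
  have := mu_le hpos n hn
  linarith

/-- Indicator of a literal in a list. -/
noncomputable def ind (l : List ℕ) (n : ℕ) : ℝ := if n ∈ l then 1 else 0

theorem ind_nonneg (l : List ℕ) (n : ℕ) : 0 ≤ ind l n := by
  unfold ind; split_ifs <;> norm_num

/-- The step map: `x - mu e_σ + mu e_τ` and the same with the opposite signs. -/
noncomputable def step (σ τ : List ℕ) (x : ℕ → ℝ) : ℕ → ℝ := fun v =>
  x v + (mu σ x - mu σ (-x)) *
    ((ind τ (2 * v) - ind τ (2 * v + 1)) - (ind σ (2 * v) - ind σ (2 * v + 1)))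

theorem continuous_step (σ τ : List ℕ) : Continuous (step σ τ) := by
  refine continuous_pi fun v => ?_
  exact (continuous_apply v).add
    (((continuous_mu σ).sub ((continuous_mu σ).comp continuous_neg)).mul continuous_const)

theorem step_neg (σ τ : List ℕ) (x : ℕ → ℝ) : step σ τ (-x) = - step σ τ x := by
  funext v
  simp only [step, Pi.neg_apply, neg_neg]
  ring

theorem co_step (σ τ : List ℕ) (x : ℕ → ℝ) (n : ℕ) :
    co (step σ τ x) n = co x n + (mu σ x - mu σ (-x)) *
      ((ind τ n - ind τ (opp n)) - (ind σ n - ind σ (opp n))) := by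
  by_cases h : n % 2 = 0
  · obtain ⟨v, rfl⟩ : ∃ v, n = 2 * v := ⟨n / 2, by omega⟩
    have h1 : opp (2 * v) = 2 * v + 1 := by unfold opp; simp
    rw [co_two_mul, co_two_mul, h1]; rfl
  · obtain ⟨v, rfl⟩ : ∃ v, n = 2 * v + 1 := ⟨n / 2, by omega⟩
    have h1 : opp (2 * v + 1) = 2 * v := by
      unfold opp
      have h2 : (2 * v + 1) % 2 ≠ 0 := by omega
      simp [h2]
    rw [co_two_mul_add, co_two_mul_add, h1]
    simp only [step]
    ring

/-- `x` lies in the cone of the signed simplex whose set of literals is `ρ`. -/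
def InC (ρ : Set ℕ) (x : ℕ → ℝ) : Prop := ∀ n, 0 < co x n → n ∈ ρ

theorem InC.mono {ρ ρ' : Set ℕ} {x : ℕ → ℝ} (h : InC ρ x) (hs : ρ ⊆ ρ') : InC ρ' x :=
  fun n hn => hs (h n hn)

/-- Nonzero points of the cone. -/
def Cone (ρ : Set ℕ) (x : ℕ → ℝ) : Prop := x ≠ 0 ∧ InC ρ x

theorem Cone.mono {ρ ρ' : Set ℕ} {x : ℕ → ℝ} (h : Cone ρ x) (hs : ρ ⊆ ρ') : Cone ρ' x :=
  ⟨h.1, h.2.mono hs⟩

theorem exists_co_pos {x : ℕ → ℝ} (h : x ≠ 0) : ∃ n, 0 < co x n := by
  obtain ⟨v, hv⟩ := Function.ne_iff.1 h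
  rcases lt_or_gt_of_ne hv with h1 | h1
  · exact ⟨2 * v + 1, by rw [co_two_mul_add]; simpa using h1⟩
  · exact ⟨2 * v, by rw [co_two_mul]; simpa using h1⟩

theorem ne_zero_of_co_pos {x : ℕ → ℝ} {n : ℕ} (h : 0 < co x n) : x ≠ 0 := by
  rintro rfl
  simp [co] at h

/-- The case of a cone that contains `σ` and not `-σ`. -/
theorem step_pos {σ τ : List ℕ} {ρ : Set ℕ} {t : ℕ} {x : ℕ → ℝ} (hσ : σ ≠ [])
    (hopp : ∃ n ∈ σ, opp n ∉ ρ) (ht : t ∈ τ) (ht1 : t ∉ σ) (ht2 : opp t ∉ τ)
    (ht3 : opp t ∉ ρ) (hx : Cone ρ x) :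
    ∃ i ∈ σ, Cone ({n | n ∈ τ} ∪ (ρ \ {i})) (step σ τ x) := by
  obtain ⟨hx0, hx⟩ := hx
  have hm0 : mu σ (-x) = 0 := by
    obtain ⟨n, hn, hn'⟩ := hopp
    refine mu_zero_of hn ?_
    rw [co_neg, ← co_opp]
    by_contra hc
    exact hn' (hx _ (not_le.1 hc))
  rcases (mu_nonneg σ x).eq_or_lt with h0 | hpos
  · -- the map is the identity at `x`
    have hs : step σ τ x = x := by
      funext v
      simp [step, hm0, ← h0]
    obtain ⟨i, hi, hi'⟩ := mu_zero hσ h0.symm
    refine ⟨i, hi, ?_⟩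
    rw [hs]
    refine ⟨hx0, fun n hn => ?_⟩
    refine Or.inr ⟨hx n hn, ?_⟩
    have : n ≠ i := by rintro rfl; linarith
    simpa using this
  · obtain ⟨i, hi, hi'⟩ := mu_eq hpos
    have hle := mu_le hpos
    refine ⟨i, hi, ?_, ?_⟩
    · -- nonzero
      refine ne_zero_of_co_pos (n := t) ?_
      rw [co_step, hm0]
      have h1 : ind τ t = 1 := by simp [ind, ht]
      have h2 : ind τ (opp t) = 0 := by simp [ind, ht2]
      have h3 : ind σ t = 0 := by simp [ind, ht1]
      have h4 := ind_nonneg σ (opp t)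
      have h5 : 0 ≤ co x t := by
        by_contra hc
        refine ht3 (hx _ ?_)
        rw [co_opp]; linarith
      rw [h1, h2, h3]
      nlinarith
    · intro n hn
      by_cases hnτ : n ∈ τ
      · exact Or.inl hnτ
      rw [co_step, hm0] at hn
      have h1 : ind τ n = 0 := by simp [ind, hnτ]
      have h2 := ind_nonneg τ (opp n)
      have h3 := ind_nonneg σ n
      rw [h1] at hn
      by_cases ho : opp n ∈ σ
      · exfalso
        have h4 : ind σ (opp n) = 1 := by simp [ind, ho]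
        have h5 := hle _ ho
        rw [co_opp] at h5
        rw [h4] at hn
        nlinarith
      · have h4 : ind σ (opp n) = 0 := by simp [ind, ho]
        rw [h4] at hn
        have h5 : 0 < co x n := by nlinarith
        refine Or.inr ⟨hx n h5, ?_⟩
        have : n ≠ i := by
          rintro rfl
          have h6 : ind σ n = 1 := by simp [ind, hi]
          rw [h6] at hn
          nlinarith
        simpa using this

/-- The case of a cone that contains neither `σ` nor `-σ`: the map is the identity. -/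
theorem step_id {σ τ : List ℕ} {ρ : Set ℕ} {x : ℕ → ℝ}
    (h1 : ∃ n ∈ σ, n ∉ ρ) (h2 : ∃ n ∈ σ, opp n ∉ ρ) (hx : Cone ρ x) :
    step σ τ x = x := by
  obtain ⟨hx0, hx⟩ := hx
  have e1 : mu σ x = 0 := by
    obtain ⟨n, hn, hn'⟩ := h1
    refine mu_zero_of hn ?_
    by_contra hc
    exact hn' (hx _ (not_le.1 hc))
  have e2 : mu σ (-x) = 0 := by
    obtain ⟨n, hn, hn'⟩ := h2
    refine mu_zero_of hn ?_
    rw [co_neg, ← co_opp]
    by_contra hc
    exact hn' (hx _ (not_le.1 hc))
  funext v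
  simp [step, e1, e2]

theorem mn_opp (x : ℕ → ℝ) (σ : List ℕ) : mn x (σ.map opp) = mn (-x) σ := by
  induction σ with
  | nil => rfl
  | cons a l ih =>
    cases l with
    | nil => simp only [List.map, mn, co_opp, co_neg]
    | cons b l =>
      simp only [List.map, mn, co_opp, co_neg] at ih ⊢
      rw [ih]

theorem ind_opp (l : List ℕ) (n : ℕ) : ind (l.map opp) n = ind l (opp n) := by
  have : n ∈ l.map opp ↔ opp n ∈ l := by
    rw [List.mem_map]
    constructor
    · rintro ⟨a, ha, rfl⟩; rwa [opp_opp]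
    · intro h; exact ⟨opp n, h, opp_opp n⟩
  unfold ind
  simp only [this]

/-- The step map does not change if all signs of `σ` and `τ` are changed. -/
theorem step_opp (σ τ : List ℕ) (x : ℕ → ℝ) : step (σ.map opp) (τ.map opp) x = step σ τ x := by
  funext v
  have h1 : opp (2 * v) = 2 * v + 1 := by unfold opp; simp
  have h2 : opp (2 * v + 1) = 2 * v := by rw [← h1, opp_opp]
  have h3 : mu (σ.map opp) x = mu σ (-x) := by unfold mu; rw [mn_opp]
  have h4 : mu (σ.map opp) (-x) = mu σ x := by unfold mu; rw [mn_opp, neg_neg]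
  simp only [step, h3, h4, ind_opp, h1, h2]
  ring

end TVC
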