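import Pool.Agent.H47.TVC.Lin

set_option autoImplicit false

/-!
# Certificates for simplices whose vertices all have the same horizontals
-/

namespace TVC

open TVD

def geth (H : List (ℤ × ℤ)) (l : ℕ) : ℤ × ℤ := H.getD l (0, 0)

def crs (a b : ℤ × ℤ) : ℤ := a.1 * b.2 - a.2 * b.1

/-- The signed height. -/
def zl (D : List ℕ) (n l : ℕ) : ℤ := sgn n (get3 (D.getD (n / 2) 0) l).2.2

/-- The determinant-like functional of the triple `a, 3 + b, 6 + c`. -/
def dz (H : List (ℤ × ℤ)) (z : ℕ → ℤ) (a b c : ℕ) : ℤ :=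
  crs (geth H (3 + b)) (geth H (6 + c)) * z a + crs (geth H (6 + c)) (geth H a) * z (3 + b) +
    crs (geth H a) (geth H (3 + b)) * z (6 + c)

def perms : List (ℕ × ℕ × ℕ) := [(0, 1, 2), (0, 2, 1), (1, 0, 2), (1, 2, 0), (2, 0, 1), (2, 1, 0)]

def pairs : List ((ℕ × ℕ × ℕ) × (ℕ × ℕ × ℕ)) :=
  perms.flatMap fun p => perms.map fun q => (p, q)

/-- The horizontals are good: three clusters, the origin inside every transversal triangle. -/
def hgood (H : List (ℤ × ℤ)) (U : List (ℤ × ℤ)) : Bool :=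
  ((List.range 3).all fun X => (List.range 9).all fun l => Nat.beq (l / 3) X ||
    ipos ((geth U X).1 * (geth H l).1 + (geth U X).2 * (geth H l).2)) &&
  ((List.range 3).all fun b => (List.range 3).all fun a =>
    ipos (crs (geth H a) (geth H (3 + b))))

def pitem (D : List ℕ) (H : List (ℤ × ℤ)) (lits : List ℕ) (p q : ℕ × ℕ × ℕ)
    (y : ℤ × ℤ × ℤ) : Bool :=
  lits.all fun n => ipos (y.1 * dz H (zl D n) 0 p.1 q.1 + y.2.1 * dz H (zl D n) 1 p.2.1 q.2.1 +
    y.2.2 * dz H (zl D n) 2 p.2.2 q.2.2)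

def pcheck (D : List ℕ) (H : List (ℤ × ℤ)) (lits : List ℕ) :
    List ((ℕ × ℕ × ℕ) × (ℕ × ℕ × ℕ)) → ℕ → Bool
  | [], _ => true
  | p :: ps, c => pitem D H lits p.1 p.2 (get3 c 0) && pcheck D H lits ps (Nat.shiftRight c 72)

theorem pcheck_sound {D : List ℕ} {H : List (ℤ × ℤ)} {lits : List ℕ}
    (ps : List ((ℕ × ℕ × ℕ) × (ℕ × ℕ × ℕ))) : ∀ ys, pcheck D H lits ps ys = true →
    ∀ p ∈ ps, ∃ y, pitem D H lits p.1 p.2 y = true := by
  induction ps with
  | nil => simp
  | cons a ps ih =>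
    intro c h p hp
    simp only [pcheck, Bool.and_eq_true] at h
    rcases List.mem_cons.1 hp with rfl | hp
    · exact ⟨get3 c 0, h.1⟩
    · exact ih _ h.2 p hp

/-- The horizontals of all the literals are the same. -/
def hsame (D : List ℕ) (H : List (ℤ × ℤ)) (lits : List ℕ) : Bool :=
  lits.all fun n => (List.range 9).all fun l =>
    decide (sgn n (get3 (D.getD (n / 2) 0) l).1 = (geth H l).1) &&
    decide (sgn n (get3 (D.getD (n / 2) 0) l).2.1 = (geth H l).2)

def dcheck (D : List ℕ) (H : List (ℤ × ℤ)) (lits : List ℕ) (ys : ℕ) : Bool :=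
  hsame D H lits && pcheck D H lits pairs ys

theorem perms_mem : ∀ b0 b1 b2 : Fin 3, b0 ≠ b1 → b0 ≠ b2 → b1 ≠ b2 →
    ((b0 : ℕ), (b1 : ℕ), (b2 : ℕ)) ∈ perms := by
  decide

noncomputable def mass (N : ℕ) (x : ℕ → ℝ) : ℝ := ∑ v ∈ Finset.range N, |x v|

theorem mass_pos {N : ℕ} {ρ : Set ℕ} {x : ℕ → ℝ} (hN : ∀ n ∈ ρ, n / 2 < N) (hx : Cone ρ x) :
    0 < mass N x := by
  obtain ⟨n0, hn0⟩ := exists_co_pos hx.1
  have hmem := hN _ (hx.2 _ hn0)
  have hne : x (n0 / 2) ≠ 0 := by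
    intro h
    unfold co at hn0
    rw [h] at hn0
    split_ifs at hn0 <;> simp at hn0
  exact Finset.sum_pos' (fun v _ => abs_nonneg _) ⟨n0 / 2, Finset.mem_range.2 hmem, abs_pos.2 hne⟩

theorem lin_const {N : ℕ} {ρ : Set ℕ} {x : ℕ → ℝ} {a : ℕ → ℤ} {c : ℤ}
    (hx : Cone ρ x) (h : ∀ n ∈ ρ, lv a n = c) : lin N a x = mass N x * c := by
  unfold lin mass
  rw [Finset.sum_mul]
  refine Finset.sum_congr rfl fun v _ => ?_
  rcases lt_trichotomy (x v) 0 with h1 | h1 | h1
  · have h2 : 2 * v + 1 ∈ ρ := hx.2 _ (by rw [co_two_mul_add]; linarith)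
    have h3 := h _ h2
    rw [lv_two_mul_add] at h3
    rw [abs_of_neg h1, ← h3]
    push_cast; ring
  · rw [h1]; simp
  · have h2 : 2 * v ∈ ρ := hx.2 _ (by rw [co_two_mul]; linarith)
    have h3 := h _ h2
    rw [lv_two_mul] at h3
    rw [abs_of_pos h1, h3]

/-- Label `k` of cluster `X`. -/
def lab (X k : Fin 3) : Fin 9 := ⟨3 * X.val + k.val, by omega⟩

theorem lab_surj (l : Fin 9) : ∃ X k, l = lab X k ∧ X.val = l.val / 3 :=
  ⟨⟨l.val / 3, by omega⟩, ⟨l.val % 3, by omega⟩, by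
    apply Fin.ext; simp only [lab]; omega, rfl⟩

theorem lab_inj {X Y k m : Fin 3} (h : lab X k = lab Y m) : X = Y ∧ k = m := by
  have := congrArg Fin.val h
  simp only [lab] at this
  constructor <;> apply Fin.ext <;> omega

/-- The algebra of one triple. -/
theorem triple_zero {la lb lc ha0 ha1 hb0 hb1 hc0 hc1 za zb zc : ℝ} (h1 : la + lb + lc = 1)
    (h2 : la * ha0 + lb * hb0 + lc * hc0 = 0) (h3 : la * ha1 + lb * hb1 + lc * hc1 = 0)
    (h4 : la * za + lb * zb + lc * zc = 0) (hw : 0 < ha0 * hb1 - ha1 * hb0) :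
    (hb0 * hc1 - hb1 * hc0) * za + (hc0 * ha1 - hc1 * ha0) * zb + (ha0 * hb1 - ha1 * hb0) * zc = 0 := by
  have e1 : la * (ha0 * hb1 - ha1 * hb0) = lc * (hb0 * hc1 - hb1 * hc0) := by
    linear_combination hb1 * h2 - hb0 * h3
  have e2 : lb * (ha0 * hb1 - ha1 * hb0) = lc * (hc0 * ha1 - hc1 * ha0) := by
    linear_combination ha0 * h3 - ha1 * h2
  have hlc : lc ≠ 0 := by
    intro h0
    rw [h0] at e1 e2
    have f1 : la = 0 := by
      rcases mul_eq_zero.1 (e1.trans (zero_mul _)) with h | h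
      · exact h
      · exact absurd h hw.ne'
    have f2 : lb = 0 := by
      rcases mul_eq_zero.1 (e2.trans (zero_mul _)) with h | h
      · exact h
      · exact absurd h hw.ne'
    rw [f1, f2, h0] at h1
    norm_num at h1
  refine (mul_eq_zero.1 ?_).resolve_left hlc
  linear_combination (ha0 * hb1 - ha1 * hb0) * h4 - za * e1 - zb * e2

/-- `pitem` in terms of `lv`. -/
theorem pitem_lv {D : List ℕ} {H : List (ℤ × ℤ)} {lits : List ℕ} {a b c d e f : Fin 3}
    {y : ℤ × ℤ × ℤ}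
    (h : pitem D H lits ((a : ℕ), (b : ℕ), (c : ℕ)) ((d : ℕ), (e : ℕ), (f : ℕ)) y = true)
    (n : ℕ) (hn : n ∈ lits) :
    0 < lv (fun v =>
      y.1 * (crs (geth H (3 + a)) (geth H (6 + d)) * FF D v (lab 0 0) 2 +
        crs (geth H (6 + d)) (geth H 0) * FF D v (lab 1 a) 2 +
        crs (geth H 0) (geth H (3 + a)) * FF D v (lab 2 d) 2) +
      y.2.1 * (crs (geth H (3 + b)) (geth H (6 + e)) * FF D v (lab 0 1) 2 +
        crs (geth H (6 + e)) (geth H 1) * FF D v (lab 1 b) 2 +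
        crs (geth H 1) (geth H (3 + b)) * FF D v (lab 2 e) 2) +
      y.2.2 * (crs (geth H (3 + c)) (geth H (6 + f)) * FF D v (lab 0 2) 2 +
        crs (geth H (6 + f)) (geth H 2) * FF D v (lab 1 c) 2 +
        crs (geth H 2) (geth H (3 + c)) * FF D v (lab 2 f) 2)) n := by
  unfold pitem at h
  rw [List.all_eq_true] at h
  have h1 := h n hn
  unfold ipos at h1
  rw [decide_eq_true_eq] at h1
  have hF : ∀ (l : Fin 9), FF D (n / 2) l 2 = (get3 (D.getD (n / 2) 0) l.val).2.2 := by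
    intro l; simp [FF]
  have hz : ∀ (l : Fin 9) (m : ℕ), l.val = m → zl D n m = sgn n (FF D (n / 2) l 2) := by
    intro l m hm
    rw [hF, hm]; rfl
  simp only [dz] at h1
  rw [hz (lab 0 0) 0 rfl, hz (lab 0 1) 1 rfl, hz (lab 0 2) 2 rfl,
    hz (lab 1 a) (3 + a) (by simp [lab]), hz (lab 1 b) (3 + b) (by simp [lab]),
    hz (lab 1 c) (3 + c) (by simp [lab]), hz (lab 2 d) (6 + d) (by simp [lab]),
    hz (lab 2 e) (6 + e) (by simp [lab]), hz (lab 2 f) (6 + f) (by simp [lab])] at h1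
  unfold lv
  unfold sgn at h1
  by_cases h2 : n % 2 = 0
  · have h3 : Nat.beq (n % 2) 0 = true := by rw [Nat.beq_eq]; exact h2
    rw [if_pos h2]
    rw [h3] at h1
    simpa using h1
  · have h3 : Nat.beq (n % 2) 0 = false := by rw [← Bool.not_eq_true, Nat.beq_eq]; exact h2
    rw [if_neg h2]
    rw [h3] at h1
    simp only [cond_false] at h1
    linarith

theorem dcheck_sound {D : List ℕ} {N : ℕ} {H U : List (ℤ × ℤ)} {lits : List ℕ}
    {ys : ℕ} (hN : ∀ n ∈ lits, n / 2 < N) (hH : hgood H U = true)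
    (h : dcheck D H lits ys = true) {x : ℕ → ℝ} (hx : Cone {n | n ∈ lits} x) :
    ¬ Split 3 (ff N (FF D) x) := by
  classical
  simp only [dcheck, Bool.and_eq_true] at h
  obtain ⟨hs, hp⟩ := h
  have hm := mass_pos (ρ := {n | n ∈ lits}) hN hx
  -- the horizontals
  have hhor : ∀ l : Fin 9, ff N (FF D) x l 0 = mass N x * ((geth H l).1 : ℝ) ∧
      ff N (FF D) x l 1 = mass N x * ((geth H l).2 : ℝ) := by
    intro l
    simp only [hsame, List.all_eq_true, Bool.and_eq_true, decide_eq_true_eq] at hs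
    constructor
    · refine lin_const hx fun n hn => ?_
      have := (hs n hn l.val (List.mem_range.2 l.isLt)).1
      rw [← this, ← sgn_eq]
      rfl
    · refine lin_const hx fun n hn => ?_
      have := (hs n hn l.val (List.mem_range.2 l.isLt)).2
      rw [← this, ← sgn_eq]
      rfl
  simp only [hgood, Bool.and_eq_true, List.all_eq_true] at hH
  obtain ⟨hU, hW⟩ := hH
  rintro ⟨A, hdisj, hcap⟩
  -- every part meets every cluster
  have hmeet : ∀ X j : Fin 3, ∃ k : Fin 3, lab X k ∈ A j := by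
    intro X j
    by_contra hc
    push Not at hc
    refine part_cert (A := A j) (w := ff N (FF D) x) (y0 := ((geth U X).1 : ℝ))
      (y1 := ((geth U X).2 : ℝ)) (y2 := 0) (fun l hl => ?_) (hcap j)
    have h1 := hU X.val (List.mem_range.2 X.isLt) l.val (List.mem_range.2 l.isLt)
    have h2 : Nat.beq (l.val / 3) X.val = false := by
      rw [← Bool.not_eq_true, Nat.beq_eq]
      intro h3
      obtain ⟨Y, k, hk, hY⟩ := lab_surj l
      have : Y = X := Fin.ext (hY.trans h3)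
      subst this
      exact hc k (hk ▸ hl)
    rw [h2, Bool.false_or] at h1
    unfold ipos at h1
    rw [decide_eq_true_eq] at h1
    rw [(hhor l).1, (hhor l).2]
    have h3 : (0 : ℝ) < ((geth U X).1 : ℝ) * ((geth H l).1 : ℝ) +
        ((geth U X).2 : ℝ) * ((geth H l).2 : ℝ) := by exact_mod_cast h1
    have h4 := mul_pos hm h3
    linarith
  choose e he using hmeet
  have hinj : ∀ X, Function.Injective (e X) := by
    intro X i j hij
    by_contra hne
    have h1 := he X i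
    have h2 := he X j
    rw [hij] at h1
    exact Set.disjoint_left.1 (hdisj i j hne) h1 h2
  have hsurj : ∀ X, Function.Surjective (e X) := fun X => Finite.surjective_of_injective (hinj X)
  choose jj hjj using hsurj 0
  have hjinj : Function.Injective jj := by
    intro a b hab
    rw [← hjj a, ← hjj b, hab]
  -- the weights
  have hD : ∀ i : Fin 3,
      crs (geth H (3 + (e 1 (jj i)))) (geth H (6 + (e 2 (jj i)))) * ff N (FF D) x (lab 0 i) 2 +
      crs (geth H (6 + (e 2 (jj i)))) (geth H i) * ff N (FF D) x (lab 1 (e 1 (jj i))) 2 +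
      crs (geth H i) (geth H (3 + (e 1 (jj i)))) * ff N (FF D) x (lab 2 (e 2 (jj i))) 2 = 0 := by
    intro i
    obtain ⟨a, ha0, haA, ha1, hz⟩ := (mem_hull_image _ _ _).1 (hcap (jj i))
    have hz' : ∀ c, ∑ l, a l * ff N (FF D) x l c = 0 := by
      intro c
      have := congrFun hz c
      simpa [Finset.sum_apply] using this
    have hzero : ∀ l, l ≠ lab 0 i → l ≠ lab 1 (e 1 (jj i)) → l ≠ lab 2 (e 2 (jj i)) → a l = 0 := by
      intro l h0 h1 h2
      apply haA
      intro hl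
      obtain ⟨X, k, rfl, -⟩ := lab_surj l
      obtain ⟨j', hj'⟩ := hsurj X k
      have h3 : lab X k ∈ A j' := by rw [← hj']; exact he X j'
      have h4 : j' = jj i := by
        by_contra hne
        exact Set.disjoint_left.1 (hdisj _ _ hne) h3 hl
      subst h4
      rw [← hj'] at h0 h1 h2
      fin_cases X
      · exact h0 (by show lab 0 (e 0 (jj i)) = lab 0 i; rw [hjj])
      · exact h1 rfl
      · exact h2 rfl
    have h01 : lab 0 i ≠ lab 1 (e 1 (jj i)) := fun h => absurd (lab_inj h).1 (by decide)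
    have h02 : lab 0 i ≠ lab 2 (e 2 (jj i)) := fun h => absurd (lab_inj h).1 (by decide)
    have h12 : lab 1 (e 1 (jj i)) ≠ lab 2 (e 2 (jj i)) := fun h => absurd (lab_inj h).1 (by decide)
    have hsum : ∀ g : Fin 9 → ℝ, (∀ l, a l = 0 → g l = 0) →
        ∑ l, g l = g (lab 0 i) + g (lab 1 (e 1 (jj i))) + g (lab 2 (e 2 (jj i))) := by
      intro g hg
      have hsub : ∑ l, g l = ∑ l ∈ ({lab 0 i, lab 1 (e 1 (jj i)), lab 2 (e 2 (jj i))} : Finset (Fin 9)), g l := by
        symm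
        refine Finset.sum_subset (Finset.subset_univ _) fun l _ hl => hg l ?_
        simp only [Finset.mem_insert, Finset.mem_singleton, not_or] at hl
        exact hzero l hl.1 hl.2.1 hl.2.2
      rw [hsub, Finset.sum_insert, Finset.sum_insert, Finset.sum_singleton]
      · ring
      · simpa using h12
      · simpa using ⟨h01, h02⟩
    have s1 := hsum a (fun l h => h)
    rw [ha1] at s1
    have s2 := hsum (fun l => a l * ff N (FF D) x l 0) (fun l h => by simp [h])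
    have s3 := hsum (fun l => a l * ff N (FF D) x l 1) (fun l h => by simp [h])
    have s4 := hsum (fun l => a l * ff N (FF D) x l 2) (fun l h => by simp [h])
    rw [hz'] at s2 s3 s4
    simp only [(hhor _).1] at s2
    simp only [(hhor _).2] at s3
    have hw := hW (e 1 (jj i)).val (List.mem_range.2 (e 1 (jj i)).isLt) i.val
      (List.mem_range.2 i.isLt)
    unfold ipos at hw
    rw [decide_eq_true_eq] at hw
    unfold crs at hw ⊢
    have v0 : (lab 0 i).val = i.val := by simp [lab]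
    have v1 : (lab 1 (e 1 (jj i))).val = 3 + (e 1 (jj i)).val := by simp [lab]
    have v2 : (lab 2 (e 2 (jj i))).val = 6 + (e 2 (jj i)).val := by simp [lab]
    rw [v0, v1, v2] at s2 s3
    push_cast
    refine triple_zero s1.symm ?_ ?_ s4.symm ?_
    · have := (mul_eq_zero.1 (show mass N x * (a (lab 0 i) * ((geth H i).1 : ℝ) +
        a (lab 1 (e 1 (jj i))) * ((geth H (3 + (e 1 (jj i)))).1 : ℝ) +
        a (lab 2 (e 2 (jj i))) * ((geth H (6 + (e 2 (jj i)))).1 : ℝ)) = 0 by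
          linear_combination -s2)).resolve_left hm.ne'
      exact this
    · have := (mul_eq_zero.1 (show mass N x * (a (lab 0 i) * ((geth H i).2 : ℝ) +
        a (lab 1 (e 1 (jj i))) * ((geth H (3 + (e 1 (jj i)))).2 : ℝ) +
        a (lab 2 (e 2 (jj i))) * ((geth H (6 + (e 2 (jj i)))).2 : ℝ)) = 0 by
          linear_combination -s3)).resolve_left hm.ne'
      exact this
    · exact_mod_cast hw
  -- the certificate of the partition
  have hb : (((e 1 (jj 0) : Fin 3) : ℕ), ((e 1 (jj 1) : Fin 3) : ℕ), ((e 1 (jj 2) : Fin 3) : ℕ)) ∈ perms :=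
    perms_mem _ _ _ (fun h => absurd (hjinj (hinj 1 h)) (by decide))
      (fun h => absurd (hjinj (hinj 1 h)) (by decide)) (fun h => absurd (hjinj (hinj 1 h)) (by decide))
  have hc : (((e 2 (jj 0) : Fin 3) : ℕ), ((e 2 (jj 1) : Fin 3) : ℕ), ((e 2 (jj 2) : Fin 3) : ℕ)) ∈ perms :=
    perms_mem _ _ _ (fun h => absurd (hjinj (hinj 2 h)) (by decide))
      (fun h => absurd (hjinj (hinj 2 h)) (by decide)) (fun h => absurd (hjinj (hinj 2 h)) (by decide))
  have hpair : ((((e 1 (jj 0) : Fin 3) : ℕ), ((e 1 (jj 1) : Fin 3) : ℕ), ((e 1 (jj 2) : Fin 3) : ℕ)),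
      (((e 2 (jj 0) : Fin 3) : ℕ), ((e 2 (jj 1) : Fin 3) : ℕ), ((e 2 (jj 2) : Fin 3) : ℕ))) ∈ pairs := by
    unfold pairs
    rw [List.mem_flatMap]
    exact ⟨_, hb, List.mem_map.2 ⟨_, hc, rfl⟩⟩
  obtain ⟨y, hy⟩ := pcheck_sound pairs ys hp _ hpair
  have hpos := lin_pos (N := N) hN (fun n hn => pitem_lv hy n hn) hx
  have h0 := hD 0
  have h1 := hD 1
  have h2 := hD 2
  have hlin : lin N (fun v =>
      y.1 * (crs (geth H (3 + (e 1 (jj 0)))) (geth H (6 + (e 2 (jj 0)))) * FF D v (lab 0 0) 2 +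
        crs (geth H (6 + (e 2 (jj 0)))) (geth H 0) * FF D v (lab 1 (e 1 (jj 0))) 2 +
        crs (geth H 0) (geth H (3 + (e 1 (jj 0)))) * FF D v (lab 2 (e 2 (jj 0))) 2) +
      y.2.1 * (crs (geth H (3 + (e 1 (jj 1)))) (geth H (6 + (e 2 (jj 1)))) * FF D v (lab 0 1) 2 +
        crs (geth H (6 + (e 2 (jj 1)))) (geth H 1) * FF D v (lab 1 (e 1 (jj 1))) 2 +
        crs (geth H 1) (geth H (3 + (e 1 (jj 1)))) * FF D v (lab 2 (e 2 (jj 1))) 2) +
      y.2.2 * (crs (geth H (3 + (e 1 (jj 2)))) (geth H (6 + (e 2 (jj 2)))) * FF D v (lab 0 2) 2 +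
        crs (geth H (6 + (e 2 (jj 2)))) (geth H 2) * FF D v (lab 1 (e 1 (jj 2))) 2 +
        crs (geth H 2) (geth H (3 + (e 1 (jj 2)))) * FF D v (lab 2 (e 2 (jj 2))) 2)) x =
      (y.1 : ℝ) * (crs (geth H (3 + (e 1 (jj 0)))) (geth H (6 + (e 2 (jj 0)))) * ff N (FF D) x (lab 0 0) 2 +
        crs (geth H (6 + (e 2 (jj 0)))) (geth H 0) * ff N (FF D) x (lab 1 (e 1 (jj 0))) 2 +
        crs (geth H 0) (geth H (3 + (e 1 (jj 0)))) * ff N (FF D) x (lab 2 (e 2 (jj 0))) 2) +
      (y.2.1 : ℝ) * (crs (geth H (3 + (e 1 (jj 1)))) (geth H (6 + (e 2 (jj 1)))) * ff N (FF D) x (lab 0 1) 2 +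
        crs (geth H (6 + (e 2 (jj 1)))) (geth H 1) * ff N (FF D) x (lab 1 (e 1 (jj 1))) 2 +
        crs (geth H 1) (geth H (3 + (e 1 (jj 1)))) * ff N (FF D) x (lab 2 (e 2 (jj 1))) 2) +
      (y.2.2 : ℝ) * (crs (geth H (3 + (e 1 (jj 2)))) (geth H (6 + (e 2 (jj 2)))) * ff N (FF D) x (lab 0 2) 2 +
        crs (geth H (6 + (e 2 (jj 2)))) (geth H 2) * ff N (FF D) x (lab 1 (e 1 (jj 2))) 2 +
        crs (geth H 2) (geth H (3 + (e 1 (jj 2)))) * ff N (FF D) x (lab 2 (e 2 (jj 2))) 2) := by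
    simp only [ff, lin, Finset.mul_sum, ← Finset.sum_add_distrib]
    refine Finset.sum_congr rfl fun v _ => ?_
    push_cast
    ring
  rw [hlin] at hpos
  have h0' : ((0 : Fin 3) : ℕ) = 0 := rfl
  have h1' : ((1 : Fin 3) : ℕ) = 1 := rfl
  have h2' : ((2 : Fin 3) : ℕ) = 2 := rfl
  rw [h0'] at h0
  rw [h1'] at h1
  rw [h2'] at h2
  rw [h0, h1, h2] at hpos
  simp at hpos

end TVC
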