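import Pool.Agent.H47.TVC.Cone

set_option autoImplicit false

/-!
# Folding a list of step maps over a list of signed simplices (bit masks)
-/

namespace TVC

/-- The set of literals of a bit mask. -/
def ms (ρ : ℕ) : Set ℕ := {n | ρ.testBit n = true}

/-- The bit mask of a list of literals. -/
def msk : List ℕ → ℕ
  | [] => 0
  | n :: l => Nat.lor (2 ^ n) (msk l)

theorem testBit_msk (l : List ℕ) (n : ℕ) : (msk l).testBit n = true ↔ n ∈ l := by
  induction l with
  | nil => simp [msk]
  | cons a l ih =>
    have h : (msk (a :: l)).testBit n = ((2 ^ a).testBit n || (msk l).testBit n) := by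
      show (Nat.lor (2 ^ a) (msk l)).testBit n = _
      exact Nat.testBit_or _ _ _
    rw [h, Bool.or_eq_true, ih, Nat.testBit_two_pow, List.mem_cons]
    constructor
    · rintro (h | h)
      · left; simpa using (by simpa using h : a = n).symm
      · right; exact h
    · rintro (h | h)
      · left; simp [h]
      · right; exact h

theorem ms_msk (l : List ℕ) : ms (msk l) = {n | n ∈ l} := by
  ext n; exact testBit_msk l n

/-- `sub a b`: every bit of `a` is a bit of `b`. -/
def sub (a b : ℕ) : Bool := Nat.beq (Nat.land b a) a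

theorem sub_iff (a b : ℕ) : sub a b = true ↔ ∀ n, a.testBit n = true → b.testBit n = true := by
  unfold sub
  rw [Nat.beq_eq]
  constructor
  · intro h n hn
    have h1 : (b &&& a).testBit n = a.testBit n := by
      show (Nat.land b a).testBit n = _
      rw [h]
    rw [Nat.testBit_and, hn] at h1
    simpa using h1
  · intro h
    show b &&& a = a
    apply Nat.eq_of_testBit_eq
    intro n
    rw [Nat.testBit_and]
    by_cases hn : a.testBit n = true
    · simp [h n hn]
    · simp [Bool.not_eq_true _ ▸ hn]

structure Stp where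
  s : List ℕ
  t : List ℕ
  t0 : ℕ
  sm : ℕ
  tm : ℕ
  so : ℕ
  tn : ℕ

/-- The step is well formed. -/
def Stp.ok (p : Stp) : Bool :=
  Nat.beq p.sm (msk p.s) && Nat.beq p.tm (msk p.t) && Nat.beq p.so (msk (p.s.map opp)) &&
  Nat.beq p.tn (msk (p.t.map opp)) && !p.s.isEmpty && Nat.testBit p.tm p.t0 &&
  !(Nat.testBit p.sm p.t0) && !(Nat.testBit p.tn p.t0)

def addTo (r : ℕ) (new : List ℕ) : List ℕ := cond (new.any (fun a => Nat.beq a r)) new (r :: new)

theorem mem_addTo (r : ℕ) (new : List ℕ) : r ∈ addTo r new ∧ ∀ a ∈ new, a ∈ addTo r new := by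
  unfold addTo
  cases h : new.any (fun a => Nat.beq a r) with
  | true =>
    rw [List.any_eq_true] at h
    obtain ⟨a, ha, hb⟩ := h
    rw [Nat.beq_eq] at hb
    subst hb
    exact ⟨ha, fun _ h => h⟩
  | false => exact ⟨by simp, fun a ha => by simp [ha]⟩

/-- The children of `ρ` (first sign). -/
def ch (tm ρ : ℕ) : List ℕ → List ℕ → List ℕ
  | [], new => new
  | i :: l, new => ch tm ρ l (addTo (Nat.lor (Nat.xor ρ (2 ^ i)) tm) new)

theorem ch_sub (tm ρ : ℕ) (l : List ℕ) : ∀ (new : List ℕ), (∀ a ∈ new, a ∈ ch tm ρ l new) ∧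
    ∀ i ∈ l, Nat.lor (Nat.xor ρ (2 ^ i)) tm ∈ ch tm ρ l new := by
  induction l with
  | nil => intro new; exact ⟨fun a ha => ha, by simp⟩
  | cons j l ih =>
    intro new
    have h := ih (addTo (Nat.lor (Nat.xor ρ (2 ^ j)) tm) new)
    have h2 := mem_addTo (Nat.lor (Nat.xor ρ (2 ^ j)) tm) new
    refine ⟨fun a ha => h.1 a (h2.2 a ha), fun i hi => ?_⟩
    rcases List.mem_cons.1 hi with rfl | hi
    · exact h.1 _ h2.1
    · exact h.2 i hi

theorem ms_child (tm ρ i : ℕ) : ms tm ∪ (ms ρ \ {i}) ⊆ ms (Nat.lor (Nat.xor ρ (2 ^ i)) tm) := by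
  intro n hn
  show ((ρ ^^^ (2 ^ i)) ||| tm).testBit n = true
  rw [Nat.testBit_or, Nat.testBit_xor, Nat.testBit_two_pow]
  rcases hn with hn | ⟨hn, hi⟩
  · have : tm.testBit n = true := hn
    simp [this]
  · have h1 : ρ.testBit n = true := hn
    have h2 : ¬ i = n := fun h => hi (by simp [h])
    simp [h1, h2]

def pass (p : Stp) (k : List ℕ → Bool) : List ℕ → List ℕ → List ℕ → Bool
  | [], kept, new => k (new ++ kept)
  | ρ :: L, kept, new =>
    cond (sub p.sm ρ)
      (cond (sub p.so ρ || Nat.testBit ρ (opp p.t0)) false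
        (pass p k L kept (ch p.tm ρ p.s new)))
      (cond (sub p.so ρ)
        (cond (Nat.testBit ρ p.t0) false
          (pass p k L kept (ch p.tn ρ (p.s.map opp) new)))
        (pass p k L (ρ :: kept) new))

/-- `x` or `-x` lies in one of the cones. -/
def Covers (L : List ℕ) (x : ℕ → ℝ) : Prop := ∃ ρ ∈ L, Cone (ms ρ) x ∨ Cone (ms ρ) (-x)

theorem Covers.neg {L : List ℕ} {x : ℕ → ℝ} (h : Covers L x) : Covers L (-x) := by
  obtain ⟨ρ, hρ, h⟩ := h
  exact ⟨ρ, hρ, by rwa [neg_neg, or_comm]⟩

theorem Covers.mono {L L' : List ℕ} {x : ℕ → ℝ} (h : Covers L x) (hs : ∀ a ∈ L, a ∈ L') :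
    Covers L' x := by
  obtain ⟨ρ, hρ, h⟩ := h
  exact ⟨ρ, hs ρ hρ, h⟩

theorem opp_mem_msk {l : List ℕ} {n : ℕ} : (msk (l.map opp)).testBit n = true ↔ opp n ∈ l := by
  rw [testBit_msk, List.mem_map]
  constructor
  · rintro ⟨a, ha, rfl⟩; rwa [opp_opp]
  · intro h; exact ⟨opp n, h, opp_opp n⟩

theorem pass_sound (p : Stp) (hp : p.ok = true) (k : List ℕ → Bool) (L : List ℕ) :
    ∀ kept new, pass p k L kept new = true →
    ∃ L', k L' = true ∧ (∀ a ∈ kept, a ∈ L') ∧ (∀ a ∈ new, a ∈ L') ∧
      ∀ ρ ∈ L, ∀ x, Cone (ms ρ) x → Covers L' (step p.s p.t x) := by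
  simp only [Stp.ok, Bool.and_eq_true, Nat.beq_eq, Bool.not_eq_true'] at hp
  obtain ⟨⟨⟨⟨⟨⟨⟨h1, h2⟩, h3⟩, h4⟩, h5⟩, h6⟩, h7⟩, h8⟩ := hp
  have hs : p.s ≠ [] := by
    intro h; rw [h] at h5; simp at h5
  have ht : p.t0 ∈ p.t := by rw [h2, testBit_msk] at h6; exact h6
  have ht1 : p.t0 ∉ p.s := by
    intro h
    rw [← testBit_msk, ← h1] at h
    rw [h] at h7; exact absurd h7 (by simp)
  have ht2 : opp p.t0 ∉ p.t := by
    intro h
    have := (opp_mem_msk (l := p.t) (n := p.t0)).2 h
    rw [← h4] at this
    rw [this] at h8; exact absurd h8 (by simp)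
  induction L with
  | nil =>
    intro kept new h
    exact ⟨new ++ kept, h, fun a ha => List.mem_append_right _ ha,
      fun a ha => List.mem_append_left _ ha, by simp⟩
  | cons ρ L ih =>
    intro kept new h
    simp only [pass] at h
    cases e1 : sub p.sm ρ with
    | true =>
      rw [e1] at h
      simp only [cond_true] at h
      cases e2 : (sub p.so ρ || Nat.testBit ρ (opp p.t0)) with
      | true => rw [e2] at h; simp at h
      | false =>
        rw [e2] at h
        simp only [cond_false] at h
        rw [Bool.or_eq_false_iff] at e2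
        obtain ⟨L', hk, hkept, hnew, hall⟩ := ih _ _ h
        refine ⟨L', hk, hkept, fun a ha => hnew a ((ch_sub _ _ _ _).1 a ha), ?_⟩
        intro ρ' hρ' x hx
        rcases List.mem_cons.1 hρ' with rfl | hρ'
        · have hopp : ∃ n ∈ p.s, opp n ∉ ms ρ' := by
            by_contra hc
            push Not at hc
            have : sub p.so ρ' = true := by
              rw [sub_iff]
              intro n hn
              rw [h3, opp_mem_msk] at hn
              have := hc _ hn
              rw [opp_opp] at this
              exact this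
            rw [this] at e2
            exact absurd e2.1 (by simp)
          have ht3 : opp p.t0 ∉ ms ρ' := by
            intro hc
            have : ρ'.testBit (opp p.t0) = true := hc
            rw [this] at e2
            exact absurd e2.2 (by simp)
          obtain ⟨i, hi, hc⟩ := step_pos hs hopp ht ht1 ht2 ht3 hx
          refine ⟨_, hnew _ ((ch_sub p.tm ρ' p.s new).2 i hi), Or.inl (hc.mono ?_)⟩
          rw [← ms_msk, ← h2]
          exact ms_child _ _ _
        · exact hall ρ' hρ' x hx
    | false =>
      rw [e1] at h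
      simp only [cond_false] at h
      have hσ : ∃ n ∈ p.s, n ∉ ms ρ := by
        by_contra hc
        push Not at hc
        have : sub p.sm ρ = true := by
          rw [sub_iff]
          intro n hn
          rw [h1, testBit_msk] at hn
          exact hc n hn
        rw [this] at e1
        exact absurd e1 (by simp)
      cases e2 : sub p.so ρ with
      | true =>
        rw [e2] at h
        simp only [cond_true] at h
        cases e3 : Nat.testBit ρ p.t0 with
        | true => rw [e3] at h; simp at h
        | false =>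
          rw [e3] at h
          simp only [cond_false] at h
          obtain ⟨L', hk, hkept, hnew, hall⟩ := ih _ _ h
          refine ⟨L', hk, hkept, fun a ha => hnew a ((ch_sub _ _ _ _).1 a ha), ?_⟩
          intro ρ' hρ' x hx
          rcases List.mem_cons.1 hρ' with rfl | hρ'
          · have hmem : ∀ (l : List ℕ) (n : ℕ), n ∈ l.map opp ↔ opp n ∈ l := by
              intro l n
              rw [← testBit_msk, opp_mem_msk]
            have hopp : ∃ n ∈ p.s.map opp, opp n ∉ ms ρ' := by
              obtain ⟨n, hn, hn'⟩ := hσ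
              exact ⟨opp n, List.mem_map.2 ⟨n, hn, rfl⟩, by rwa [opp_opp]⟩
            have ht' : opp p.t0 ∈ p.t.map opp := List.mem_map.2 ⟨_, ht, rfl⟩
            have ht1' : opp p.t0 ∉ p.s.map opp := by rw [hmem, opp_opp]; exact ht1
            have ht2' : opp (opp p.t0) ∉ p.t.map opp := by rw [hmem, opp_opp]; exact ht2
            have ht3' : opp (opp p.t0) ∉ ms ρ' := by
              rw [opp_opp]
              intro hc
              have : ρ'.testBit p.t0 = true := hc
              rw [this] at e3
              exact absurd e3 (by simp)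
            have hs' : p.s.map opp ≠ [] := by simpa using hs
            obtain ⟨i, hi, hc⟩ := step_pos hs' hopp ht' ht1' ht2' ht3' hx
            rw [step_opp] at hc
            refine ⟨_, hnew _ ((ch_sub p.tn ρ' (p.s.map opp) new).2 i hi), Or.inl (hc.mono ?_)⟩
            rw [← ms_msk, ← h4]
            exact ms_child _ _ _
          · exact hall ρ' hρ' x hx
      | false =>
        rw [e2] at h
        simp only [cond_false] at h
        obtain ⟨L', hk, hkept, hnew, hall⟩ := ih _ _ h
        refine ⟨L', hk, fun a ha => hkept a (List.mem_cons_of_mem _ ha), hnew, ?_⟩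
        intro ρ' hρ' x hx
        rcases List.mem_cons.1 hρ' with rfl | hρ'
        · have hopp : ∃ n ∈ p.s, opp n ∉ ms ρ' := by
            by_contra hc
            push Not at hc
            have : sub p.so ρ' = true := by
              rw [sub_iff]
              intro n hn
              rw [h3, opp_mem_msk] at hn
              have := hc _ hn
              rw [opp_opp] at this
              exact this
            rw [this] at e2
            exact absurd e2 (by simp)
          rw [step_id hσ hopp hx]
          exact ⟨ρ', hkept ρ' (by simp), Or.inl hx⟩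
        · exact hall ρ' hρ' x hx

/-- Run all the steps. -/
def run (k : List ℕ → Bool) : List Stp → List ℕ → Bool
  | [], L => k L
  | p :: ps, L => cond p.ok (pass p (run k ps) L [] []) false

/-- The composition of the step maps. -/
noncomputable def gs : List Stp → (ℕ → ℝ) → (ℕ → ℝ)
  | [], x => x
  | p :: ps, x => gs ps (step p.s p.t x)

theorem continuous_gs (ps : List Stp) : Continuous (gs ps) := by
  induction ps with
  | nil => exact continuous_id
  | cons p ps ih => exact ih.comp (continuous_step _ _)

theorem gs_neg (ps : List Stp) : ∀ x, gs ps (-x) = - gs ps x := by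
  induction ps with
  | nil => intro x; rfl
  | cons p ps ih => intro x; simp only [gs, step_neg, ih]

theorem run_sound (k : List ℕ → Bool) (ps : List Stp) : ∀ L, run k ps L = true →
    ∃ L', k L' = true ∧ ∀ x, Covers L x → Covers L' (gs ps x) := by
  induction ps with
  | nil => intro L h; exact ⟨L, h, fun x hx => hx⟩
  | cons p ps ih =>
    intro L h
    simp only [run] at h
    cases hp : p.ok with
    | false => rw [hp] at h; simp at h
    | true =>
      rw [hp] at h
      simp only [cond_true] at h
      obtain ⟨L1, hk1, -, -, h1⟩ := pass_sound p hp _ L [] [] h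
      obtain ⟨L2, hk2, h2⟩ := ih L1 hk1
      refine ⟨L2, hk2, fun x hx => h2 _ ?_⟩
      obtain ⟨ρ, hρ, hc | hc⟩ := hx
      · exact h1 ρ hρ x hc
      · have := h1 ρ hρ (-x) hc
        rw [step_neg] at this
        simpa using this.neg

end TVC
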