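import Pool.Agent.H47.TVC.Fold
import Pool.Agent.H47.TVD.Defs
import Pool.Agent.H47.TVD.RadonU

set_option autoImplicit false

/-!
# Certificates on the cone of a signed simplex
-/

namespace TVC

open TVD

/-- The value of an integer function at a literal. -/
def lv (a : ℕ → ℤ) (n : ℕ) : ℤ := if n % 2 = 0 then a (n / 2) else - a (n / 2)

theorem lv_two_mul (a : ℕ → ℤ) (v : ℕ) : lv a (2 * v) = a v := by unfold lv; simp

theorem lv_two_mul_add (a : ℕ → ℤ) (v : ℕ) : lv a (2 * v + 1) = - a v := by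
  unfold lv
  have h1 : (2 * v + 1) % 2 ≠ 0 := by omega
  have h2 : (2 * v + 1) / 2 = v := by omega
  simp [h2]

/-- The linear functional with coefficients `a`. -/
noncomputable def lin (N : ℕ) (a : ℕ → ℤ) (x : ℕ → ℝ) : ℝ := ∑ v ∈ Finset.range N, x v * (a v : ℝ)

theorem continuous_lin (N : ℕ) (a : ℕ → ℤ) : Continuous (lin N a) := by
  unfold lin
  exact continuous_finsetSum _ fun v _ => (continuous_apply v).mul continuous_const

theorem lin_neg (N : ℕ) (a : ℕ → ℤ) (x : ℕ → ℝ) : lin N a (-x) = - lin N a x := by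
  unfold lin
  rw [← Finset.sum_neg_distrib]
  exact Finset.sum_congr rfl fun v _ => by simp

theorem lin_pos {N : ℕ} {a : ℕ → ℤ} {ρ : Set ℕ} {x : ℕ → ℝ} (hN : ∀ n ∈ ρ, n / 2 < N)
    (ha : ∀ n ∈ ρ, 0 < lv a n) (hx : Cone ρ x) : 0 < lin N a x := by
  have key : ∀ v, x v ≠ 0 → 0 < x v * (a v : ℝ) := by
    intro v hv
    rcases lt_or_gt_of_ne hv with h | h
    · have h1 : 2 * v + 1 ∈ ρ := hx.2 _ (by rw [co_two_mul_add]; linarith)
      have h2 := ha _ h1
      rw [lv_two_mul_add] at h2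
      have h3 : (a v : ℝ) < 0 := by
        have : a v < 0 := by omega
        exact_mod_cast this
      exact mul_pos_of_neg_of_neg h h3
    · have h1 : 2 * v ∈ ρ := hx.2 _ (by rw [co_two_mul]; linarith)
      have h2 := ha _ h1
      rw [lv_two_mul] at h2
      have h3 : (0 : ℝ) < (a v : ℝ) := by exact_mod_cast h2
      exact mul_pos h h3
  obtain ⟨n0, hn0⟩ := exists_co_pos hx.1
  have hmem := hN _ (hx.2 _ hn0)
  have hne : x (n0 / 2) ≠ 0 := by
    intro h
    unfold co at hn0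
    rw [h] at hn0
    split_ifs at hn0 <;> simp at hn0
  unfold lin
  refine Finset.sum_pos' (fun v _ => ?_) ⟨n0 / 2, Finset.mem_range.2 hmem, key _ hne⟩
  by_cases hv : x v = 0
  · simp [hv]
  · exact (key v hv).le

/-- The map given by the values `F` at the vertices. -/
noncomputable def ff (N : ℕ) (F : ℕ → Fin 9 → Fin 3 → ℤ) (x : ℕ → ℝ) : Fin 9 → Fin 3 → ℝ :=
  fun l i => lin N (fun v => F v l i) x

theorem ff_dot (N : ℕ) (F : ℕ → Fin 9 → Fin 3 → ℤ) (x : ℕ → ℝ) (l : Fin 9) (y0 y1 y2 : ℤ) :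
    (y0 : ℝ) * ff N F x l 0 + (y1 : ℝ) * ff N F x l 1 + (y2 : ℝ) * ff N F x l 2 =
      lin N (fun v => y0 * F v l 0 + y1 * F v l 1 + y2 * F v l 2) x := by
  simp only [ff, lin, Finset.mul_sum, ← Finset.sum_add_distrib]
  refine Finset.sum_congr rfl fun v _ => ?_
  push_cast
  ring

theorem part_cert {A : Set (Fin 9)} {w : Fin 9 → Fin 3 → ℝ} {y0 y1 y2 : ℝ}
    (h : ∀ l ∈ A, 0 < y0 * w l 0 + y1 * w l 1 + y2 * w l 2) :
    (0 : Fin 3 → ℝ) ∉ convexHull ℝ (w '' A) := by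
  intro hc
  obtain ⟨a, ha0, haA, ha1, hz⟩ := (mem_hull_image w A 0).1 hc
  have hz' : ∀ i, ∑ l, a l * w l i = 0 := by
    intro i
    have := congrFun hz i
    simpa [Finset.sum_apply] using this
  have h1 : ∑ l, a l * (y0 * w l 0 + y1 * w l 1 + y2 * w l 2) = 0 := by
    have : ∑ l, a l * (y0 * w l 0 + y1 * w l 1 + y2 * w l 2) =
        y0 * ∑ l, a l * w l 0 + y1 * ∑ l, a l * w l 1 + y2 * ∑ l, a l * w l 2 := by
      simp only [Finset.mul_sum, ← Finset.sum_add_distrib]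
      refine Finset.sum_congr rfl fun l _ => ?_
      ring
    rw [this, hz' 0, hz' 1, hz' 2]; ring
  have h2 : 0 < ∑ l, a l * (y0 * w l 0 + y1 * w l 1 + y2 * w l 2) := by
    have hex : ∃ l, a l ≠ 0 := by
      by_contra hc
      push Not at hc
      simp [hc] at ha1
    obtain ⟨l0, hl0⟩ := hex
    refine Finset.sum_pos' (fun l _ => ?_) ⟨l0, Finset.mem_univ _, ?_⟩
    · by_cases hl : l ∈ A
      · exact mul_nonneg (ha0 l) (h l hl).le
      · rw [haA l hl]; simp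
    · have hl : l0 ∈ A := by
        by_contra hc
        exact hl0 (haA l0 hc)
      exact mul_pos (lt_of_le_of_ne (ha0 l0) (Ne.symm hl0)) (h l0 hl)
  linarith

/-- Brute force: there are no three disjoint sets meeting all the sets of `Cs`. -/
def nt (Cs : List ℕ) : List ℕ → ℕ → ℕ → ℕ → Bool
  | [], p, q, r => Cs.any (fun C => Nat.beq (Nat.land C p) 0 || Nat.beq (Nat.land C q) 0 ||
      Nat.beq (Nat.land C r) 0)
  | l :: ls, p, q, r => nt Cs ls (Nat.lor p (2 ^ l)) q r && nt Cs ls p (Nat.lor q (2 ^ l)) r &&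
      nt Cs ls p q (Nat.lor r (2 ^ l))

/-- `A` meets `C` in `p` or in `ls`. -/
def Mt (C : ℕ) (ls : List ℕ) (p : ℕ) (A : Set ℕ) : Prop :=
  ∃ l, C.testBit l = true ∧ (p.testBit l = true ∨ (l ∈ ls ∧ l ∈ A))

theorem Mt.here {C : ℕ} {ls : List ℕ} {p l : ℕ} {A : Set ℕ} (h : Mt C (l :: ls) p A) :
    Mt C ls (Nat.lor p (2 ^ l)) A := by
  obtain ⟨m, hC, hm⟩ := h
  refine ⟨m, hC, ?_⟩
  have e : (Nat.lor p (2 ^ l)).testBit m = (p.testBit m || (2 ^ l).testBit m) :=
    Nat.testBit_or _ _ _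
  rw [e]
  rcases hm with hm | ⟨hm, hA⟩
  · left; simp [hm]
  · rcases List.mem_cons.1 hm with rfl | hm
    · left; simp
    · right; exact ⟨hm, hA⟩

theorem Mt.skip {C : ℕ} {ls : List ℕ} {p l : ℕ} {A : Set ℕ} (h : Mt C (l :: ls) p A)
    (hl : l ∉ A) : Mt C ls p A := by
  obtain ⟨m, hC, hm⟩ := h
  refine ⟨m, hC, ?_⟩
  rcases hm with hm | ⟨hm, hA⟩
  · left; exact hm
  · rcases List.mem_cons.1 hm with rfl | hm
    · exact absurd hA hl
    · right; exact ⟨hm, hA⟩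

theorem nt_sound (Cs : List ℕ) (A0 A1 A2 : Set ℕ) (h01 : ∀ l, l ∈ A0 → l ∉ A1)
    (h02 : ∀ l, l ∈ A0 → l ∉ A2) (h12 : ∀ l, l ∈ A1 → l ∉ A2) (ls : List ℕ) : ∀ p q r,
    nt Cs ls p q r = true → (∀ C ∈ Cs, Mt C ls p A0 ∧ Mt C ls q A1 ∧ Mt C ls r A2) → False := by
  classical
  induction ls with
  | nil =>
    intro p q r h hm
    simp only [nt, List.any_eq_true, Bool.or_eq_true, Nat.beq_eq] at h
    obtain ⟨C, hC, h⟩ := h
    have key : ∀ (s : ℕ) (A : Set ℕ), Mt C [] s A → Nat.land C s ≠ 0 := by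
      rintro s A ⟨l, hl, hs | hs⟩ h0
      · have : (C &&& s).testBit l = true := by rw [Nat.testBit_and, hl, hs]; rfl
        have h1 : C &&& s = 0 := h0
        rw [h1] at this
        simp at this
      · simp at hs
    obtain ⟨m0, m1, m2⟩ := hm C hC
    rcases h with (h | h) | h
    · exact key _ _ m0 h
    · exact key _ _ m1 h
    · exact key _ _ m2 h
  | cons l ls ih =>
    intro p q r h hm
    simp only [nt, Bool.and_eq_true] at h
    obtain ⟨⟨h0, h1⟩, h2⟩ := h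
    by_cases a0 : l ∈ A0
    · exact ih _ _ _ h0 fun C hC =>
        ⟨(hm C hC).1.here, (hm C hC).2.1.skip (h01 l a0), (hm C hC).2.2.skip (h02 l a0)⟩
    by_cases a1 : l ∈ A1
    · exact ih _ _ _ h1 fun C hC =>
        ⟨(hm C hC).1.skip a0, (hm C hC).2.1.here, (hm C hC).2.2.skip (h12 l a1)⟩
    · exact ih _ _ _ h2 fun C hC =>
        ⟨(hm C hC).1.skip a0, (hm C hC).2.1.skip a1, (hm C hC).2.2.here⟩

/-- Digit `k` of a code: 24 bits, shifted by `2 ^ 23`. -/
def dig (c k : ℕ) : ℤ := Int.subNatNat (Nat.land (Nat.shiftRight c (Nat.mul 24 k)) 16777215) 8388608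

/-- Triple number `l` of the code of a vertex (nine integer triples). -/
def get3 (r : ℕ) (l : ℕ) : ℤ × ℤ × ℤ :=
  (dig r (Nat.mul 3 l), dig r (Nat.add (Nat.mul 3 l) 1), dig r (Nat.add (Nat.mul 3 l) 2))

def FF (D : List ℕ) (v : ℕ) (l : Fin 9) (i : Fin 3) : ℤ :=
  let t := get3 (D.getD v 0) l.val
  if i = 0 then t.1 else if i = 1 then t.2.1 else t.2.2

/-- The sign of a literal applied to an integer. -/
def sgn (n : ℕ) (z : ℤ) : ℤ := cond (Nat.beq (n % 2) 0) z (-z)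

theorem sgn_eq (n : ℕ) (a : ℕ → ℤ) : sgn n (a (n / 2)) = lv a n := by
  unfold sgn lv
  by_cases h : n % 2 = 0
  · have : Nat.beq (n % 2) 0 = true := by rw [Nat.beq_eq]; exact h
    simp [h]
  · have : Nat.beq (n % 2) 0 = false := by
      rw [← Bool.not_eq_true, Nat.beq_eq]; exact h
    simp [h, this]

def dot3 (y t : ℤ × ℤ × ℤ) : ℤ := y.1 * t.1 + y.2.1 * t.2.1 + y.2.2 * t.2.2

def ipos (z : ℤ) : Bool := decide (0 < z)

/-- Half space item: covector `y` and the set `C` of labels that are not on the positive side. -/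
def hitem (D : List ℕ) (lits : List ℕ) (y : ℤ × ℤ × ℤ) (C : ℕ) : Bool :=
  (List.range 9).all fun l => Nat.testBit C l ||
    lits.all fun n => ipos (sgn n (dot3 y (get3 (D.getD (n / 2) 0) l)))

/-- An item is coded by a number: covector in the digits 0, 1, 2, set of labels in the rest. -/
def itC (c : ℕ) : ℕ := Nat.shiftRight c 72

def hcheck (D : List ℕ) (lits : List ℕ) (items : List ℕ) (ls : List ℕ) : Bool :=
  (items.all fun c => hitem D lits (get3 c 0) (itC c)) &&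
  (items.all fun c => (List.range 9).all fun l => !(Nat.testBit (itC c) l) || ls.any (Nat.beq l)) &&
  nt (items.map itC) ls 0 0 0

theorem hitem_sound {D : List ℕ} {N : ℕ} {lits : List ℕ} {y : ℤ × ℤ × ℤ} {C : ℕ}
    (hN : ∀ n ∈ lits, n / 2 < N) (h : hitem D lits y C = true) {x : ℕ → ℝ}
    (hx : Cone {n | n ∈ lits} x) (l : Fin 9) (hl : C.testBit l.val = false) :
    0 < (y.1 : ℝ) * ff N (FF D) x l 0 + (y.2.1 : ℝ) * ff N (FF D) x l 1 +
      (y.2.2 : ℝ) * ff N (FF D) x l 2 := by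
  rw [ff_dot]
  refine lin_pos hN (fun n hn => ?_) hx
  unfold hitem at h
  rw [List.all_eq_true] at h
  have h1 := h l.val (List.mem_range.2 l.isLt)
  rw [hl, Bool.false_or, List.all_eq_true] at h1
  have h2 := h1 n hn
  unfold ipos at h2
  rw [decide_eq_true_eq] at h2
  rw [← sgn_eq]
  exact h2

theorem hcheck_sound {D : List ℕ} {N : ℕ} {lits : List ℕ} {items : List ℕ}
    {ls : List ℕ} (hN : ∀ n ∈ lits, n / 2 < N) (h : hcheck D lits items ls = true) {x : ℕ → ℝ}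
    (hx : Cone {n | n ∈ lits} x) : ¬ Split 3 (ff N (FF D) x) := by
  simp only [hcheck, Bool.and_eq_true, List.all_eq_true] at h
  obtain ⟨⟨h1, h2⟩, h3⟩ := h
  rintro ⟨A, hdisj, hcap⟩
  have key : ∀ j, ∀ it ∈ items, ∃ l : Fin 9, l ∈ A j ∧ (itC it).testBit l.val = true := by
    intro j it hit
    by_contra hc
    push Not at hc
    refine part_cert (A := A j) (w := ff N (FF D) x) (y0 := (get3 it 0).1)
      (y1 := (get3 it 0).2.1) (y2 := (get3 it 0).2.2) (fun l hl => ?_) (hcap j)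
    have h4 := hc l hl
    rw [ne_eq, Bool.not_eq_true] at h4
    exact hitem_sound hN (h1 it hit) hx l h4
  let B : Fin 3 → Set ℕ := fun j => {m | ∃ h : m < 9, (⟨m, h⟩ : Fin 9) ∈ A j}
  have hB : ∀ i j, i ≠ j → ∀ m, m ∈ B i → m ∉ B j := by
    rintro i j hij m ⟨hm, hi⟩ ⟨hm', hj⟩
    exact Set.disjoint_left.1 (hdisj i j hij) hi hj
  have hmt : ∀ j, ∀ C ∈ items.map itC, Mt C ls 0 (B j) := by
    intro j C hC
    obtain ⟨it, hit, rfl⟩ := List.mem_map.1 hC
    obtain ⟨l, hl, hb⟩ := key j it hit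
    refine ⟨l.val, hb, Or.inr ⟨?_, l.isLt, hl⟩⟩
    have h5 := h2 it hit l.val (List.mem_range.2 l.isLt)
    rw [hb] at h5
    simp only [Bool.not_true, Bool.false_or, List.any_eq_true, Nat.beq_eq] at h5
    obtain ⟨m, hm, e⟩ := h5
    rw [e]; exact hm
  exact nt_sound _ (B 0) (B 1) (B 2) (hB 0 1 (by decide)) (hB 0 2 (by decide))
    (hB 1 2 (by decide)) ls 0 0 0 h3 fun C hC => ⟨hmt 0 C hC, hmt 1 C hC, hmt 2 C hC⟩

end TVC
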