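import Pool.Agent.H47.TVC.Dcert

set_option autoImplicit false
set_option linter.unusedSimpArgs false

/-!
# Statement (C) from a list of steps and certificates
-/

namespace TVC

open TVD

/-- The embedding of `ℝ⁴` as the first four coordinates. -/
noncomputable def emb (x : Fin 4 → ℝ) : ℕ → ℝ := fun v => if h : v < 4 then x ⟨v, h⟩ else 0

theorem continuous_emb : Continuous emb := by
  refine continuous_pi fun v => ?_
  unfold emb
  by_cases h : v < 4
  · simp only [h, dite_true]; exact continuous_apply _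
  · simp only [h, dite_false]; exact continuous_const

theorem emb_neg (x : Fin 4 → ℝ) : emb (-x) = - emb x := by
  funext v
  unfold emb
  by_cases h : v < 4 <;> simp [h]

/-- The simplices of the 16-cell with `x 0 ≥ 0`. -/
def L0 : List ℕ := [0b01010101, 0b01011001, 0b01100101, 0b01101001, 0b10010101, 0b10011001,
  0b10100101, 0b10101001]

theorem emb_co {x : Fin 4 → ℝ} {n : ℕ} (h : 0 < co (emb x) n) : n < 8 := by
  by_contra hc
  have h1 : ¬ n / 2 < 4 := by omega
  unfold co emb at h
  simp [h1] at h

theorem covers_L0 (x : Fin 4 → ℝ) (hx : emb x ≠ 0) : Covers L0 (emb x) := by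
  suffices H : ∀ y : Fin 4 → ℝ, emb y ≠ 0 → 0 ≤ y 0 → Covers L0 (emb y) by
    rcases le_total 0 (x 0) with h | h
    · exact H x hx h
    · have h1 := H (-x) (by rw [emb_neg]; simpa using hx) (by simpa using h)
      rw [emb_neg] at h1
      simpa using h1.neg
  intro y hy h0
  have key : ∀ ρ : ℕ, (∀ n, n < 8 → 0 < co (emb y) n → ρ.testBit n = true) → Cone (ms ρ) (emb y) :=
    fun ρ h => ⟨hy, fun n hn => h n (emb_co hn) hn⟩
  have c0 : co (emb y) 0 = y 0 := by simp [co, emb]
  have c1 : co (emb y) 1 = - y 0 := by simp [co, emb]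
  have c2 : co (emb y) 2 = y 1 := by simp [co, emb]
  have c3 : co (emb y) 3 = - y 1 := by simp [co, emb]
  have c4 : co (emb y) 4 = y 2 := by simp [co, emb]
  have c5 : co (emb y) 5 = - y 2 := by simp [co, emb]
  have c6 : co (emb y) 6 = y 3 := by simp [co, emb]
  have c7 : co (emb y) 7 = - y 3 := by simp [co, emb]
  rcases le_total 0 (y 1) with h1 | h1 <;> rcases le_total 0 (y 2) with h2 | h2 <;>
    rcases le_total 0 (y 3) with h3 | h3
  · refine ⟨0b01010101, by decide, Or.inl (key _ ?_)⟩
    intro n hn hp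
    interval_cases n
    all_goals first | decide | (exfalso; simp only [c0, c1, c2, c3, c4, c5, c6, c7] at hp; linarith)
  · refine ⟨0b10010101, by decide, Or.inl (key _ ?_)⟩
    intro n hn hp
    interval_cases n
    all_goals first | decide | (exfalso; simp only [c0, c1, c2, c3, c4, c5, c6, c7] at hp; linarith)
  · refine ⟨0b01100101, by decide, Or.inl (key _ ?_)⟩
    intro n hn hp
    interval_cases n
    all_goals first | decide | (exfalso; simp only [c0, c1, c2, c3, c4, c5, c6, c7] at hp; linarith)
  · refine ⟨0b10100101, by decide, Or.inl (key _ ?_)⟩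
    intro n hn hp
    interval_cases n
    all_goals first | decide | (exfalso; simp only [c0, c1, c2, c3, c4, c5, c6, c7] at hp; linarith)
  · refine ⟨0b01011001, by decide, Or.inl (key _ ?_)⟩
    intro n hn hp
    interval_cases n
    all_goals first | decide | (exfalso; simp only [c0, c1, c2, c3, c4, c5, c6, c7] at hp; linarith)
  · refine ⟨0b10011001, by decide, Or.inl (key _ ?_)⟩
    intro n hn hp
    interval_cases n
    all_goals first | decide | (exfalso; simp only [c0, c1, c2, c3, c4, c5, c6, c7] at hp; linarith)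
  · refine ⟨0b01101001, by decide, Or.inl (key _ ?_)⟩
    intro n hn hp
    interval_cases n
    all_goals first | decide | (exfalso; simp only [c0, c1, c2, c3, c4, c5, c6, c7] at hp; linarith)
  · refine ⟨0b10101001, by decide, Or.inl (key _ ?_)⟩
    intro n hn hp
    interval_cases n
    all_goals first | decide | (exfalso; simp only [c0, c1, c2, c3, c4, c5, c6, c7] at hp; linarith)

theorem split_neg {w : Fin 9 → Fin 3 → ℝ} (h : Split 3 w) : Split 3 (-w) := by
  obtain ⟨A, hd, hc⟩ := h
  refine ⟨A, hd, fun j => ?_⟩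
  obtain ⟨a, h0, h1, h2, h3⟩ := (mem_hull_image _ _ _).1 (hc j)
  refine (mem_hull_image _ _ _).2 ⟨a, h0, h1, h2, ?_⟩
  have : ∑ l, a l • (-w) l = - ∑ l, a l • w l := by
    rw [← Finset.sum_neg_distrib]
    exact Finset.sum_congr rfl fun l _ => by simp
  rw [this, h3, neg_zero]

theorem ff_neg (N : ℕ) (F : ℕ → Fin 9 → Fin 3 → ℤ) (x : ℕ → ℝ) : ff N F (-x) = - ff N F x := by
  funext l i
  exact lin_neg N _ x

theorem continuous_ff (N : ℕ) (F : ℕ → Fin 9 → Fin 3 → ℤ) : Continuous (ff N F) :=
  continuous_pi fun _ => continuous_pi fun _ => continuous_lin N _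

/-- A simplex is good: nothing splits on its cone. -/
def Good (N : ℕ) (D : List ℕ) (ρ : ℕ) : Prop :=
  ∀ x, Cone (ms ρ) x → ¬ Split 3 (ff N (FF D) x)

/-- Statement (C) from an odd continuous map that respects the coverings. -/
theorem statementC_of_cover (N : ℕ) (D : List ℕ) (g : (ℕ → ℝ) → (ℕ → ℝ)) (hc : Continuous g)
    (ho : ∀ x, g (-x) = - g x) (L : List ℕ) (hcov : ∀ x, Covers L0 x → Covers L (g x))
    (hk : ∀ ρ ∈ L, Good N D ρ) : StatementC := by
  refine ⟨fun x => ff N (FF D) (g (emb x)), ?_, ?_, ?_⟩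
  · exact ((continuous_ff N _).comp (hc.comp continuous_emb)).continuousOn
  · intro x _
    show ff N (FF D) (g (emb (-x))) = - ff N (FF D) (g (emb x))
    rw [emb_neg, ho, ff_neg]
  · intro x hx hsplit
    have hne : emb x ≠ 0 := by
      intro h
      have h0 : ∀ i : Fin 4, x i = 0 := by
        intro i
        have := congrFun h i.val
        simpa [emb] using this
      have : ∑ i, x i ^ 2 = 1 := hx
      simp [h0] at this
    obtain ⟨ρ, hρ, hc | hc⟩ := hcov _ (covers_L0 x hne)
    · exact hk ρ hρ _ hc hsplit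
    · refine hk ρ hρ _ hc ?_
      rw [ff_neg]
      exact split_neg hsplit

theorem statementC_of (N : ℕ) (D : List ℕ) (steps : List Stp) (k : List ℕ → Bool)
    (hrun : run k steps L0 = true) (hk : ∀ L, k L = true → ∀ ρ ∈ L, Good N D ρ) : StatementC := by
  obtain ⟨L, hL, hcov⟩ := run_sound k steps L0 hrun
  exact statementC_of_cover N D (gs steps) (continuous_gs steps) (gs_neg steps) L hcov (hk L hL)

/-- One stage: a list of steps from the list `L` to the list `M`. -/
def Stage (L M : List ℕ) : Prop := ∃ g : (ℕ → ℝ) → (ℕ → ℝ), Continuous g ∧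
  (∀ x, g (-x) = - g x) ∧ ∀ x, Covers L x → Covers M (g x)

theorem Stage.trans {L M K : List ℕ} (h1 : Stage L M) (h2 : Stage M K) : Stage L K := by
  obtain ⟨g, hg, hg', hc⟩ := h1
  obtain ⟨f, hf, hf', hd⟩ := h2
  exact ⟨fun x => f (g x), hf.comp hg, fun x => by
    show f (g (-x)) = - f (g x)
    rw [hg', hf'], fun x hx => hd _ (hc x hx)⟩

/-- Certificates. -/
inductive Cert
  | d (lits : List ℕ) (ys : ℕ) : Cert
  | h (lits : List ℕ) (items : List ℕ) (ls : List ℕ) : Cert

def bnd (N : ℕ) (lits : List ℕ) : Bool := lits.all fun n => Nat.blt (n / 2) N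

/-- The simplex or its antipode is contained in the simplex with literals `lits`. -/
def sub2 (ρ : ℕ) (lits : List ℕ) : Bool := sub ρ (msk lits) || sub ρ (msk (lits.map opp))

def certOK (N : ℕ) (D : List ℕ) (H : List (ℤ × ℤ)) (ρ : ℕ) : Cert → Bool
  | .d lits ys => bnd N lits && sub2 ρ lits && dcheck D H lits ys
  | .h lits items ls => bnd N lits && sub2 ρ lits && hcheck D lits items ls

theorem bnd_sound {N : ℕ} {lits : List ℕ} (h : bnd N lits = true) : ∀ n ∈ lits, n / 2 < N := by
  unfold bnd at h
  rw [List.all_eq_true] at h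
  intro n hn
  have h1 := h n hn
  rw [Nat.blt_eq] at h1
  exact h1

theorem good_of_sub2 {N : ℕ} {D : List ℕ} {ρ : ℕ} {lits : List ℕ} (h : sub2 ρ lits = true)
    (hg : ∀ x, Cone {n | n ∈ lits} x → ¬ Split 3 (ff N (FF D) x)) : Good N D ρ := by
  intro x hx
  unfold sub2 at h
  rcases Bool.or_eq_true_iff.1 h with h | h
  · refine hg x (hx.mono ?_)
    intro n hn
    exact (testBit_msk lits n).1 ((sub_iff _ _).1 h n hn)
  · intro hs
    have h0 : -x ≠ 0 := by simpa using hx.1
    refine hg (-x) ⟨h0, ?_⟩ ?_
    · intro n hn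
      rw [co_neg, ← co_opp] at hn
      have h1 := (sub_iff _ _).1 h _ (hx.2 _ hn)
      rw [opp_mem_msk, opp_opp] at h1
      exact h1
    · rw [ff_neg]; exact split_neg hs

theorem certOK_sound {N : ℕ} {D : List ℕ} {H U : List (ℤ × ℤ)} (hH : hgood H U = true) {ρ : ℕ}
    {c : Cert} (h : certOK N D H ρ c = true) : Good N D ρ := by
  cases c with
  | d lits ys =>
    simp only [certOK, Bool.and_eq_true] at h
    obtain ⟨⟨h1, h2⟩, h3⟩ := h
    exact good_of_sub2 h2 fun x hx => dcheck_sound (bnd_sound h1) hH h3 hx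
  | h lits items ls =>
    simp only [certOK, Bool.and_eq_true] at h
    obtain ⟨⟨h1, h2⟩, h3⟩ := h
    exact good_of_sub2 h2 fun x hx => hcheck_sound (bnd_sound h1) h3 hx

/-- Check a list of simplices against a list of certificates. -/
def certs (N : ℕ) (D : List ℕ) (H : List (ℤ × ℤ)) : List ℕ → List Cert → Bool
  | [], _ => true
  | _ :: _, [] => false
  | ρ :: L, c :: cs => certOK N D H ρ c && certs N D H L cs

theorem certs_sound {N : ℕ} {D : List ℕ} {H U : List (ℤ × ℤ)} (hH : hgood H U = true)
    (L : List ℕ) : ∀ cs, certs N D H L cs = true → ∀ ρ ∈ L, Good N D ρ := by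
  induction L with
  | nil => simp
  | cons a L ih =>
    intro cs h ρ hρ
    cases cs with
    | nil => simp [certs] at h
    | cons c cs =>
      simp only [certs, Bool.and_eq_true] at h
      rcases List.mem_cons.1 hρ with rfl | hρ
      · exact certOK_sound hH h.1
      · exact ih cs h.2 ρ hρ

/-- Equality of lists of numbers. -/
def eqL : List ℕ → List ℕ → Bool
  | [], [] => true
  | a :: l, b :: m => Nat.beq a b && eqL l m
  | _, _ => false

theorem eqL_sound (l : List ℕ) : ∀ m, eqL l m = true → l = m := by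
  induction l with
  | nil => intro m h; cases m with
    | nil => rfl
    | cons b m => simp [eqL] at h
  | cons a l ih => intro m h; cases m with
    | nil => simp [eqL] at h
    | cons b m =>
      simp only [eqL, Bool.and_eq_true, Nat.beq_eq] at h
      rw [h.1, ih m h.2]

theorem stage_of_run {L M : List ℕ} (steps : List Stp) (h : run (eqL M) steps L = true) :
    Stage L M := by
  obtain ⟨K, hK, hc⟩ := run_sound (eqL M) steps L h
  rw [← eqL_sound _ _ hK] at hc
  exact ⟨gs steps, continuous_gs steps, gs_neg steps, hc⟩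

theorem statementC_of_stage (N : ℕ) (D : List ℕ) {L : List ℕ} (h : Stage L0 L)
    (hk : ∀ ρ ∈ L, Good N D ρ) : StatementC := by
  obtain ⟨g, hg, hg', hc⟩ := h
  exact statementC_of_cover N D g hg hg' L hc hk

end TVC
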